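import Pool.Agent.Helper43.IdioMain

/-!
# A two-component tile admitting a pseudo-idiomeric tiling but no idiomeric tiling

The prototile is `T = P ∪ (P + 9 + 9ζ)`, where `ζ = exp(iπ/3)` and `P` is an 18-cell polyiamond
(a closed topological disk) whose only nontrivial symmetry is a half-turn.  The polyiamond `P` tiles
the plane rigidly: every tiling by congruent copies of `P` is the image of one tiling with
symmetry group `p6`.  The tiling `T0` by copies of `T` pairs the copies of `P` by a parity rule.

The definitions used in the statement are in `Pool/Agent/Helper43/IdioDefs.lean`.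
-/

namespace Pool.Agent.Results.MP_ad45c3_co.PseudoNotIdiomeric

open Pool.Agent.Helper43.Idio

/-- There is a prototile with exactly two components that admits a pseudo-idiomeric tiling of the
plane but admits no idiomeric tiling. -/
theorem result : ∃ T : Set ℂ, IsPrototile 2 T ∧ (∃ 𝒯 : Set (Set ℂ), IsPseudoIdiomeric T 𝒯) ∧
    ¬ ∃ 𝒯 : Set (Set ℂ), IsIdiomeric T 𝒯 :=
  main

end Pool.Agent.Results.MP_ad45c3_co.PseudoNotIdiomeric
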